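import Mathlib

/-!
# Automatic groups, word metrics and quasi-isometries
-/

set_option autoImplicit false

namespace H65.QIO

/-- the padded word of a pair: `u` and `v` are read synchronously, and the shorter of the two is
continued at its end with the padding symbol `none` -/
def pad {α : Type*} : List α → List α → List (Option α × Option α)
  | [], [] => []
  | a :: u, [] => (some a, none) :: pad u []
  | [], b :: v => (none, some b) :: pad [] v
  | a :: u, b :: v => (some a, some b) :: pad u v

/-- the language of padded pairs `(u, v)` of words of `L` with `π(u) x = π(v)` -/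
def multiplier {α G : Type*} [Group G] (π : α → G) (L : Language α) (x : G) :
    Language (Option α × Option α) :=
  {p | ∃ u ∈ L, ∃ v ∈ L, (u.map π).prod * x = (v.map π).prod ∧ p = pad u v}

/-- `L` is (the word language of) an automatic structure of the group `G`, over an alphabet `α` whose
letters stand for elements of `G` by `π : α → G`: the language `L` is regular and maps onto `G`, and for
every `x` in `π(α) ∪ {1}` the padded pairs `(u, v)` of words of `L` with `π(u) x = π(v)` form a regular
language -/
structure IsAutomaticStructure {α G : Type*} [Group G] (π : α → G) (L : Language α) : Prop where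
  regular : L.IsRegular
  onto : ∀ g : G, ∃ u ∈ L, (u.map π).prod = g
  equality : (multiplier π L 1).IsRegular
  multiplication : ∀ a : α, (multiplier π L (π a)).IsRegular

/-- `G` is automatic: it has an automatic structure over a finite generating set closed under inverses -/
def IsAutomatic (G : Type*) [Group G] : Prop :=
  ∃ A : Finset G, (∀ a ∈ A, a⁻¹ ∈ A) ∧ Subgroup.closure (A : Set G) = ⊤ ∧
    ∃ L : Language {a // a ∈ A}, IsAutomaticStructure (fun a : {a // a ∈ A} => (a : G)) L

/-- word length of `g` over the generating set `A`: the least length of a word with letters in `A` or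
inverse to elements of `A` that represents `g` -/
noncomputable def wordLength {G : Type*} [Group G] (A : Set G) (g : G) : ℕ :=
  sInf {n | ∃ w : List G, w.length = n ∧ (∀ x ∈ w, x ∈ A ∨ x⁻¹ ∈ A) ∧ w.prod = g}

/-- word metric -/
noncomputable def wordDist {G : Type*} [Group G] (A : Set G) (g h : G) : ℕ :=
  wordLength A (g⁻¹ * h)

/-- `f` is a quasi-isometry for the word metrics of `A` and `B` -/
def IsQuasiIsometry {G H : Type*} [Group G] [Group H] (A : Set G) (B : Set H) (f : G → H) : Prop :=
  ∃ l C : ℝ, 1 ≤ l ∧ 0 ≤ C ∧
    (∀ g g' : G, l⁻¹ * wordDist A g g' - C ≤ wordDist B (f g) (f g') ∧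
      (wordDist B (f g) (f g') : ℝ) ≤ l * wordDist A g g' + C) ∧
    ∀ h : H, ∃ g : G, (wordDist B (f g) h : ℝ) ≤ C

end H65.QIO
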