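import Pool.Agent.Lib_helper65.QIown.Defs
import Pool.Agent.Lib_helper57.QI.Defs

set_option autoImplicit false

namespace H65.QIO

open H57.QI

theorem pad_eq {α : Type*} (u v : List α) :
    pad u v = (u.map some ++ List.replicate (v.length - u.length) none).zip
      (v.map some ++ List.replicate (u.length - v.length) none) := by
  induction u generalizing v with
  | nil =>
    induction v with
    | nil => simp [pad]
    | cons b v ih =>
      simp only [pad, ih]
      simp [List.replicate_succ]
  | cons a u ih =>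
    cases v with
    | nil =>
      simp only [pad, ih]
      simp [List.replicate_succ]
    | cons b v =>
      simp only [pad, ih]
      simp

theorem pad_map {α β : Type*} (f : α → β) (u v : List α) :
    pad (u.map f) (v.map f) = (pad u v).map (Prod.map (Option.map f) (Option.map f)) := by
  induction u generalizing v with
  | nil =>
    induction v with
    | nil => simp [pad]
    | cons b v ih =>
      simp only [List.map_nil] at ih
      simp [pad, ih]
  | cons a u ih =>
    cases v with
    | nil =>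
      have := ih []
      simp only [List.map_nil] at this
      simp [pad, this]
    | cons b v => simp [pad, ih]

theorem pad_swap {α : Type*} (u v : List α) :
    pad v u = (pad u v).map Prod.swap := by
  induction u generalizing v with
  | nil =>
    induction v with
    | nil => simp [pad]
    | cons b v ih => simp [pad, ih]
  | cons a u ih =>
    cases v with
    | nil => simp [pad, ih]
    | cons b v => simp [pad, ih]

/-- the nondeterministic automaton of the image of a language under a letter map -/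
def mapNFA {α β σ : Type*} (f : α → β) (M : DFA α σ) : NFA β σ where
  step s b := {t | ∃ a, f a = b ∧ M.step s a = t}
  start := {M.start}
  accept := M.accept

theorem mem_mapNFA_evalFrom {α β σ : Type*} (f : α → β) (M : DFA α σ) (l : List β) (t : σ) :
    t ∈ (mapNFA f M).evalFrom {M.start} l ↔ ∃ w : List α, w.map f = l ∧ M.evalFrom M.start w = t := by
  induction l using List.reverseRecOn generalizing t with
  | nil =>
    simp [NFA.evalFrom_nil]
    exact eq_comm
  | append_singleton l b ih =>
    rw [NFA.evalFrom_append, NFA.evalFrom_singleton, NFA.mem_stepSet]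
    constructor
    · rintro ⟨s, hs, ht⟩
      obtain ⟨w, hw, hws⟩ := (ih s).1 hs
      obtain ⟨a, ha, hat⟩ := ht
      refine ⟨w ++ [a], by simp [hw, ha], ?_⟩
      rw [DFA.evalFrom_append_singleton, hws, hat]
    · rintro ⟨w, hw, hwt⟩
      rcases List.eq_nil_or_concat w with rfl | ⟨w', a, rfl⟩
      · simp at hw
      · simp only [List.concat_eq_append] at hw hwt
        rw [List.map_append] at hw
        have h1 := List.append_inj' hw (by simp)
        have h2 : f a = b := by simpa using h1.2
        rw [DFA.evalFrom_append_singleton] at hwt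
        exact ⟨_, (ih _).2 ⟨w', h1.1, rfl⟩, a, h2, hwt⟩

/-- regular languages are closed under letter maps -/
theorem isRegular_image {α β : Type*} (f : α → β) {L : Language α} (h : L.IsRegular)
    {L' : Language β} (hL : ∀ l, l ∈ L' ↔ ∃ w ∈ L, w.map f = l) : L'.IsRegular := by
  obtain ⟨σ, _, M, rfl⟩ := h
  refine ⟨Set σ, inferInstance, (mapNFA f M).toDFA, ?_⟩
  rw [NFA.toDFA_correct]
  ext l
  rw [hL, NFA.mem_accepts]
  constructor
  · rintro ⟨t, ht, h⟩
    obtain ⟨w, hw, hwt⟩ := (mem_mapNFA_evalFrom f M l t).1 h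
    exact ⟨w, by rw [DFA.mem_accepts]; unfold DFA.eval; rw [hwt]; exact ht, hw⟩
  · rintro ⟨w, hw, hwl⟩
    exact ⟨_, hw, (mem_mapNFA_evalFrom f M l _).2 ⟨w, hwl, rfl⟩⟩

/-- an automatic structure over a finite alphabet gives automaticity -/
theorem isAut_of {G : Type} [Group G] {α : Type} [Finite α] {π : α → G} {L : Language α}
    (h : IsAutomaticStructure π L) : IsAut G := by
  obtain ⟨⟨σ, fσ, W, hW⟩, onto, ⟨τ₁, f₁, M₁, hM₁⟩, mult⟩ := h
  refine ⟨α, Fintype.ofFinite α, π, σ, fσ, W, ?_, ?_⟩
  · intro g
    obtain ⟨u, hu, hg⟩ := onto g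
    exact ⟨u, by rw [hW]; exact hu, hg⟩
  · intro x
    cases x with
    | none =>
      refine ⟨τ₁, f₁, M₁, fun p => ?_⟩
      rw [hM₁, hW]
      constructor
      · rintro ⟨u, hu, v, hv, he, hp⟩
        exact ⟨u, v, hu, hv, by rw [hp, pad_eq], by simpa using he⟩
      · rintro ⟨u, v, hu, hv, hp, he⟩
        exact ⟨u, hu, v, hv, by simpa using he, by rw [hp, pad_eq]⟩
    | some a =>
      obtain ⟨τ, fτ, M, hM⟩ := mult a
      refine ⟨τ, fτ, M, fun p => ?_⟩
      rw [hM, hW]
      constructor
      · rintro ⟨u, hu, v, hv, he, hp⟩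
        exact ⟨u, v, hu, hv, by rw [hp, pad_eq], by simpa using he⟩
      · rintro ⟨u, v, hu, hv, hp, he⟩
        exact ⟨u, hu, v, hv, by simpa using he, by rw [hp, pad_eq]⟩

/-- an automatic group has an automatic structure over a finite generating set closed under inverses -/
theorem isAutomatic_of {G : Type} [Group G] (h : IsAut G) : IsAutomatic G := by
  classical
  obtain ⟨α, fα, μ, σ, fσ, W, onto, mult⟩ := h
  let A : Finset G := Finset.univ.image μ ∪ Finset.univ.image (fun a => (μ a)⁻¹)
  have hA1 : ∀ a, μ a ∈ A := fun a =>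
    Finset.mem_union_left _ (Finset.mem_image_of_mem _ (Finset.mem_univ _))
  have hA2 : ∀ a, (μ a)⁻¹ ∈ A := fun a =>
    Finset.mem_union_right _ (Finset.mem_image_of_mem _ (Finset.mem_univ _))
  have hA : ∀ x ∈ A, ∃ a, x = μ a ∨ x = (μ a)⁻¹ := by
    intro x hx
    rcases Finset.mem_union.1 hx with hx | hx
    · obtain ⟨a, -, rfl⟩ := Finset.mem_image.1 hx
      exact ⟨a, Or.inl rfl⟩
    · obtain ⟨a, -, rfl⟩ := Finset.mem_image.1 hx
      exact ⟨a, Or.inr rfl⟩
  let f : α → {a // a ∈ A} := fun a => ⟨μ a, hA1 a⟩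
  let π : {a // a ∈ A} → G := fun a => (a : G)
  have hπf : ∀ w : List α, ((w.map f).map π).prod = (w.map μ).prod := by
    intro w
    rw [List.map_map]
    rfl
  let L : Language {a // a ∈ A} := {l | ∃ w ∈ W.accepts, w.map f = l}
  have hL : ∀ l, l ∈ L ↔ ∃ w ∈ W.accepts, w.map f = l := fun l => Iff.rfl
  have hreg : L.IsRegular := isRegular_image f ⟨σ, fσ, W, rfl⟩ hL
  -- regularity of the language of pairs with `μ u * y = μ v`
  have key : ∀ y : G, (∃ M : Language (Option α × Option α), M.IsRegular ∧
      ∀ p, p ∈ M ↔ ∃ u v : List α, u ∈ W.accepts ∧ v ∈ W.accepts ∧ p = pad u v ∧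
        (u.map μ).prod * y = (v.map μ).prod) → (multiplier π L y).IsRegular := by
    rintro y ⟨M, hM, hMp⟩
    refine isRegular_image (Prod.map (Option.map f) (Option.map f)) hM (fun l => ?_)
    constructor
    · rintro ⟨_, ⟨u, hu, rfl⟩, _, ⟨v, hv, rfl⟩, he, rfl⟩
      rw [hπf, hπf] at he
      exact ⟨pad u v, (hMp _).2 ⟨u, v, hu, hv, rfl, he⟩, (pad_map f u v).symm⟩
    · rintro ⟨w, hw, rfl⟩
      obtain ⟨u, v, hu, hv, rfl, he⟩ := (hMp _).1 hw
      exact ⟨u.map f, ⟨u, hu, rfl⟩, v.map f, ⟨v, hv, rfl⟩, by rw [hπf, hπf]; exact he,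
        (pad_map f u v).symm⟩
  have mult' : ∀ x : Option α, ∃ M : Language (Option α × Option α), M.IsRegular ∧
      ∀ p, p ∈ M ↔ ∃ u v : List α, u ∈ W.accepts ∧ v ∈ W.accepts ∧ p = pad u v ∧
        (u.map μ).prod * (x.map μ).getD 1 = (v.map μ).prod := by
    intro x
    obtain ⟨τ, fτ, M, hM⟩ := mult x
    refine ⟨M.accepts, ⟨τ, fτ, M, rfl⟩, fun p => ?_⟩
    rw [hM]
    simp only [pad_eq]
  refine ⟨A, ?_, ?_, L, hreg, ?_, ?_, ?_⟩
  · intro x hx
    obtain ⟨a, rfl | rfl⟩ := hA x hx
    · exact hA2 a
    · rw [inv_inv]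
      exact hA1 a
  · rw [eq_top_iff]
    intro g _
    obtain ⟨w, -, rfl⟩ := onto g
    apply Subgroup.list_prod_mem
    intro x hx
    obtain ⟨a, -, rfl⟩ := List.mem_map.1 hx
    exact Subgroup.subset_closure (hA1 a)
  · intro g
    obtain ⟨w, hw, hg⟩ := onto g
    exact ⟨w.map f, ⟨w, hw, rfl⟩, by rw [← hg]; exact hπf w⟩
  · exact key 1 (by simpa using mult' none)
  · rintro ⟨x, hx⟩
    obtain ⟨a, ha⟩ := hA x hx
    rcases ha with ha | ha
    · refine key x ?_
      subst ha
      simpa using mult' (some a)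
    · refine key x ?_
      subst ha
      obtain ⟨M, hM, hMp⟩ := mult' (some a)
      let M' : Language (Option α × Option α) := {l | ∃ w ∈ M, w.map Prod.swap = l}
      refine ⟨M', isRegular_image Prod.swap hM (fun _ => Iff.rfl), fun p => ?_⟩
      constructor
      · rintro ⟨w, hw, rfl⟩
        obtain ⟨u, v, hu, hv, rfl, he⟩ := (hMp _).1 hw
        refine ⟨v, u, hv, hu, (pad_swap u v).symm, ?_⟩
        have he' : (u.map μ).prod * μ a = (v.map μ).prod := by simpa using he
        rw [← he']
        group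
      · rintro ⟨u, v, hu, hv, rfl, he⟩
        refine ⟨pad v u, (hMp _).2 ⟨v, u, hv, hu, rfl, ?_⟩, (pad_swap v u).symm⟩
        show (v.map μ).prod * μ a = (u.map μ).prod
        rw [← he]
        group

end H65.QIO
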