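import Pool.Agent.Lib_helper65.QIown.Defs
import Pool.Agent.Lib_helper57.QI.Defs

set_option autoImplicit false

namespace H65.QIO

open H57.QI

section
variable {G : Type*} [Group G]

/-- Cayley graph of the frozen statement -/
abbrev cay (S : Finset G) : SimpleGraph G := SimpleGraph.fromRel (fun g k : G => ∃ s ∈ S, k = g * s)

theorem exists_word {A : Set G} (hA : Subgroup.closure A = ⊤) (g : G) :
    ∃ w : List G, (∀ x ∈ w, x ∈ A ∨ x⁻¹ ∈ A) ∧ w.prod = g := by
  have hg : g ∈ Subgroup.closure A := by
    rw [hA]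
    trivial
  rw [← Subgroup.mem_toSubmonoid, Subgroup.closure_toSubmonoid] at hg
  obtain ⟨w, hw, rfl⟩ := Submonoid.exists_list_of_mem_closure hg
  refine ⟨w, fun x hx => ?_, rfl⟩
  rcases hw x hx with h | h
  · exact Or.inl h
  · exact Or.inr (Set.mem_inv.1 h)

theorem exists_geod {A : Set G} (hA : Subgroup.closure A = ⊤) (g : G) :
    ∃ w : List G, w.length = wordLength A g ∧ (∀ x ∈ w, x ∈ A ∨ x⁻¹ ∈ A) ∧ w.prod = g := by
  obtain ⟨w, hw, hg⟩ := exists_word hA g
  have := Nat.sInf_mem (s := {n | ∃ w : List G, w.length = n ∧ (∀ x ∈ w, x ∈ A ∨ x⁻¹ ∈ A) ∧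
    w.prod = g}) ⟨w.length, w, rfl, hw, hg⟩
  exact this

theorem wordLength_le {A : Set G} (w : List G) (hw : ∀ x ∈ w, x ∈ A ∨ x⁻¹ ∈ A) :
    wordLength A w.prod ≤ w.length :=
  Nat.sInf_le ⟨w, rfl, hw, rfl⟩

/-- a word gives a walk in the Cayley graph -/
theorem exists_walk (S : Finset G) (w : List G) (hw : ∀ x ∈ w, x ∈ (S : Set G) ∨ x⁻¹ ∈ (S : Set G))
    (g : G) : ∃ p : (cay S).Walk g (g * w.prod), p.length ≤ w.length := by
  induction w generalizing g with
  | nil => exact ⟨SimpleGraph.Walk.nil.copy rfl (by simp), by simp⟩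
  | cons x w ih =>
    obtain ⟨p, hp⟩ := ih (fun y hy => hw y (by simp [hy])) (g * x)
    have he : g * x * w.prod = g * (x :: w).prod := by simp [mul_assoc]
    by_cases h1 : g = g * x
    · refine ⟨p.copy h1.symm he, ?_⟩
      simp only [SimpleGraph.Walk.length_copy, List.length_cons]
      omega
    · have hadj : (cay S).Adj g (g * x) := by
        rw [SimpleGraph.fromRel_adj]
        refine ⟨h1, ?_⟩
        rcases hw x (by simp) with h | h
        · exact Or.inl ⟨x, h, rfl⟩
        · exact Or.inr ⟨x⁻¹, h, by group⟩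
      refine ⟨(SimpleGraph.Walk.cons hadj p).copy rfl he, ?_⟩
      simp only [SimpleGraph.Walk.length_copy, SimpleGraph.Walk.length_cons, List.length_cons]
      omega

/-- a walk in the Cayley graph gives a word -/
theorem exists_word_of_walk (S : Finset G) {g h : G} (p : (cay S).Walk g h) :
    ∃ w : List G, w.length = p.length ∧ (∀ x ∈ w, x ∈ (S : Set G) ∨ x⁻¹ ∈ (S : Set G)) ∧
      w.prod = g⁻¹ * h := by
  induction p with
  | nil => exact ⟨[], by simp, by simp, by simp⟩
  | @cons a b c hab p ih =>
    obtain ⟨w, hw, hS, hprod⟩ := ih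
    rw [SimpleGraph.fromRel_adj] at hab
    refine ⟨(a⁻¹ * b) :: w, by simp [hw], ?_, ?_⟩
    · intro x hx
      rcases List.mem_cons.1 hx with rfl | hx
      · rcases hab.2 with ⟨s, hs, h⟩ | ⟨s, hs, h⟩
        · left
          rw [h]
          simpa using hs
        · right
          rw [h]
          simpa using hs
      · exact hS x hx
    · rw [List.prod_cons, hprod]
      group

theorem dist_eq {S : Finset G} (hS : Subgroup.closure (S : Set G) = ⊤) (g h : G) :
    (cay S).dist g h = wordDist (S : Set G) g h := by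
  obtain ⟨w, hw, hwS, hprod⟩ := exists_geod hS (g⁻¹ * h)
  obtain ⟨p, hp⟩ := exists_walk S w hwS g
  have he : g * w.prod = h := by
    rw [hprod]
    group
  let p' : (cay S).Walk g h := p.copy rfl he
  have hp' : p'.length ≤ w.length := by
    simpa [p'] using hp
  apply le_antisymm
  · calc (cay S).dist g h ≤ p'.length := SimpleGraph.dist_le p'
      _ ≤ w.length := hp'
      _ = wordDist (S : Set G) g h := hw
  · obtain ⟨q, hq⟩ := (p'.reachable).exists_walk_length_eq_dist
    obtain ⟨w', hw', hS', hprod'⟩ := exists_word_of_walk S q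
    rw [← hq, ← hw']
    unfold wordDist
    rw [← hprod']
    exact wordLength_le w' hS'

theorem wordLength_inv {A : Set G} (hA : Subgroup.closure A = ⊤) (g : G) :
    wordLength A g⁻¹ ≤ wordLength A g := by
  obtain ⟨w, hw, hwA, rfl⟩ := exists_geod hA g
  rw [← hw]
  have h1 : (w.map (·⁻¹)).reverse.prod = (w.prod)⁻¹ := by
    rw [List.prod_inv_reverse]
  rw [← h1]
  refine (wordLength_le _ ?_).trans (by simp)
  intro x hx
  simp only [List.mem_reverse, List.mem_map] at hx
  obtain ⟨y, hy, rfl⟩ := hx
  rw [inv_inv]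
  exact (hwA y hy).symm

theorem wordLength_mul {A : Set G} (hA : Subgroup.closure A = ⊤) (g h : G) :
    wordLength A (g * h) ≤ wordLength A g + wordLength A h := by
  obtain ⟨w, hw, hwA, rfl⟩ := exists_geod hA g
  obtain ⟨w', hw', hwA', rfl⟩ := exists_geod hA h
  rw [← hw, ← hw', ← List.prod_append, ← List.length_append]
  refine wordLength_le _ ?_
  intro x hx
  rcases List.mem_append.1 hx with hx | hx
  · exact hwA x hx
  · exact hwA' x hx

theorem wordLength_one {A : Set G} : wordLength A (1 : G) = 0 := by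
  have := wordLength_le (A := A) ([] : List G) (by simp)
  simpa using this

/-- change of generating set -/
theorem exists_const {A B : Finset G} (hA : Subgroup.closure (A : Set G) = ⊤)
    (hB : Subgroup.closure (B : Set G) = ⊤) :
    ∃ K : ℕ, ∀ g h : G, wordDist (A : Set G) g h ≤ K * wordDist (B : Set G) g h := by
  let K := B.sup (fun b => wordLength (A : Set G) b)
  have hK : ∀ b ∈ B, wordLength (A : Set G) b ≤ K := fun b hb =>
    Finset.le_sup (f := fun b => wordLength (A : Set G) b) hb
  have key : ∀ w : List G, (∀ x ∈ w, x ∈ (B : Set G) ∨ x⁻¹ ∈ (B : Set G)) →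
      wordLength (A : Set G) w.prod ≤ K * w.length := by
    intro w
    induction w with
    | nil =>
      intro _
      simp [wordLength_one]
    | cons x w ih =>
      intro hw
      have h1 := ih (fun y hy => hw y (by simp [hy]))
      have h2 : wordLength (A : Set G) x ≤ K := by
        rcases hw x (by simp) with h | h
        · exact hK x h
        · calc wordLength (A : Set G) x = wordLength (A : Set G) (x⁻¹)⁻¹ := by rw [inv_inv]
            _ ≤ wordLength (A : Set G) x⁻¹ := wordLength_inv hA _
            _ ≤ K := hK _ h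
      rw [List.prod_cons, List.length_cons]
      calc wordLength (A : Set G) (x * w.prod) ≤ wordLength (A : Set G) x +
            wordLength (A : Set G) w.prod := wordLength_mul hA _ _
        _ ≤ K + K * w.length := Nat.add_le_add h2 h1
        _ = K * (w.length + 1) := by ring
  refine ⟨K, fun g h => ?_⟩
  obtain ⟨w, hw, hwB, hprod⟩ := exists_geod hB (g⁻¹ * h)
  unfold wordDist
  rw [← hw, ← hprod]
  exact key w hwB

end

/-- the quasi-isometry of the frozen statement, in the word metrics of arbitrary finite generating sets -/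
theorem quasi {G H : Type} [Group G] [Group H] (h : IsQI G H) :
    ∃ f : G → H, ∀ (A : Finset G) (B : Finset H), Subgroup.closure (A : Set G) = ⊤ →
      Subgroup.closure (B : Set H) = ⊤ → IsQuasiIsometry (A : Set G) (B : Set H) f := by
  obtain ⟨S, T, f, K, C, hS, hT, h1, h2, h3⟩ := h
  refine ⟨f, fun A B hA hB => ?_⟩
  obtain ⟨K1, hK1⟩ := exists_const hA hS
  obtain ⟨K2, hK2⟩ := exists_const hS hA
  obtain ⟨K3, hK3⟩ := exists_const hB hT
  obtain ⟨K4, hK4⟩ := exists_const hT hB
  -- the estimates in `ℕ`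
  have e1 : ∀ a b : G, wordDist (B : Set H) (f a) (f b) ≤
      K3 * K * K2 * wordDist (A : Set G) a b + K3 * C := by
    intro a b
    have := h1 a b
    rw [show (SimpleGraph.fromRel (fun h k : H => ∃ t ∈ T, k = h * t)).dist (f a) (f b) =
      wordDist (T : Set H) (f a) (f b) from dist_eq hT _ _,
      show (SimpleGraph.fromRel (fun g k : G => ∃ s ∈ S, k = g * s)).dist a b =
      wordDist (S : Set G) a b from dist_eq hS _ _] at this
    calc wordDist (B : Set H) (f a) (f b) ≤ K3 * wordDist (T : Set H) (f a) (f b) := hK3 _ _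
      _ ≤ K3 * (K * wordDist (S : Set G) a b + C) := Nat.mul_le_mul_left _ this
      _ ≤ K3 * (K * (K2 * wordDist (A : Set G) a b) + C) := by
          gcongr
          exact hK2 _ _
      _ = K3 * K * K2 * wordDist (A : Set G) a b + K3 * C := by ring
  have e2 : ∀ a b : G, wordDist (A : Set G) a b ≤
      K1 * K * K4 * wordDist (B : Set H) (f a) (f b) + K1 * C := by
    intro a b
    have := h2 a b
    rw [show (SimpleGraph.fromRel (fun h k : H => ∃ t ∈ T, k = h * t)).dist (f a) (f b) =
      wordDist (T : Set H) (f a) (f b) from dist_eq hT _ _,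
      show (SimpleGraph.fromRel (fun g k : G => ∃ s ∈ S, k = g * s)).dist a b =
      wordDist (S : Set G) a b from dist_eq hS _ _] at this
    calc wordDist (A : Set G) a b ≤ K1 * wordDist (S : Set G) a b := hK1 _ _
      _ ≤ K1 * (K * wordDist (T : Set H) (f a) (f b) + C) := Nat.mul_le_mul_left _ this
      _ ≤ K1 * (K * (K4 * wordDist (B : Set H) (f a) (f b)) + C) := by
          gcongr
          exact hK4 _ _
      _ = K1 * K * K4 * wordDist (B : Set H) (f a) (f b) + K1 * C := by ring
  have e3 : ∀ h : H, ∃ g : G, wordDist (B : Set H) (f g) h ≤ K3 * C := by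
    intro h
    obtain ⟨g, hg⟩ := h3 h
    rw [show (SimpleGraph.fromRel (fun h' k : H => ∃ t ∈ T, k = h' * t)).dist (f g) h =
      wordDist (T : Set H) (f g) h from dist_eq hT _ _] at hg
    exact ⟨g, (hK3 _ _).trans (Nat.mul_le_mul_left _ hg)⟩
  let l : ℕ := 1 + K3 * K * K2 + K1 * K * K4
  let D : ℕ := K3 * C + K1 * C
  have hl : (1 : ℝ) ≤ (l : ℝ) := by
    have : 1 ≤ l := by
      simp only [l]
      omega
    exact_mod_cast this
  have hl0 : (0 : ℝ) < (l : ℝ) := by linarith
  refine ⟨(l : ℝ), (D : ℝ), hl, Nat.cast_nonneg _, fun g g' => ⟨?_, ?_⟩, fun h => ?_⟩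
  · have h4 : wordDist (A : Set G) g g' ≤ l * wordDist (B : Set H) (f g) (f g') + D := by
      refine (e2 g g').trans ?_
      gcongr
      · simp only [l]
        omega
      · simp only [D]
        omega
    have h5 : (wordDist (A : Set G) g g' : ℝ) ≤ l * wordDist (B : Set H) (f g) (f g') + D := by
      exact_mod_cast h4
    have h6 : (l : ℝ)⁻¹ * wordDist (A : Set G) g g' ≤
        wordDist (B : Set H) (f g) (f g') + (l : ℝ)⁻¹ * D := by
      calc (l : ℝ)⁻¹ * wordDist (A : Set G) g g' ≤
            (l : ℝ)⁻¹ * (l * wordDist (B : Set H) (f g) (f g') + D) :=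
            mul_le_mul_of_nonneg_left h5 (inv_nonneg.2 hl0.le)
        _ = wordDist (B : Set H) (f g) (f g') + (l : ℝ)⁻¹ * D := by
            field_simp
    have h7 : (l : ℝ)⁻¹ * D ≤ D := by
      have : (l : ℝ)⁻¹ ≤ 1 := inv_le_one_of_one_le₀ hl
      have hD : (0 : ℝ) ≤ (D : ℝ) := Nat.cast_nonneg _
      nlinarith
    linarith
  · have h4 : wordDist (B : Set H) (f g) (f g') ≤ l * wordDist (A : Set G) g g' + D := by
      refine (e1 g g').trans ?_
      gcongr
      · simp only [l]
        omega
      · simp only [D]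
        omega
    exact_mod_cast h4
  · obtain ⟨g, hg⟩ := e3 h
    refine ⟨g, ?_⟩
    have : wordDist (B : Set H) (f g) h ≤ D := hg.trans (by simp only [D]; omega)
    exact_mod_cast this

end H65.QIO
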